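import Pool.Agent.H369.TH.Stm

/-! Windows and leading terms of theta functions. -/

set_option autoImplicit false

namespace Pool.Agent.H955.TH

open Pool.Agent.H369.TH

variable {Γ K : Type} [AddCommGroup Γ] [LinearOrder Γ] [IsOrderedAddMonoid Γ] [Field K]

theorem cf_monomial_mul {u : HL Γ K} {a₁ : Γ} {m₁ : ℤ} {κ : K}
    (hu₁ : cf u a₁ m₁ = κ) (hu : ∀ a m, ¬ (a = a₁ ∧ m = m₁) → cf u a m = 0) (v : HL Γ K) (a : Γ)
    (m : ℤ) : cf (u * v) a m = κ * cf v (a - a₁) (m - m₁) := by
  rw [cf_mul, finsum_eq_single _ (a₁, m₁)]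
  · simp only [hu₁]
  · rintro ⟨b, i⟩ hne
    have : cf u b i = 0 := by
      apply hu
      rintro ⟨rfl, rfl⟩
      exact hne rfl
    simp only [this, zero_mul]

theorem cf_mono0 (k : ℤ) : cf ((mono k : Ent Γ K).1 0) 0 k = 1 := by
  classical
  show ((HahnSeries.single (k • (0 : Γ)) (AddMonoidAlgebra.single k (1 : K))).coeff 0).coeff k = 1
  rw [smul_zero, HahnSeries.coeff_single_same]
  simp

theorem cf_mono0' (k : ℤ) (a : Γ) (m : ℤ) (h : ¬ (a = 0 ∧ m = k)) :
    cf ((mono k : Ent Γ K).1 0) a m = 0 := by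
  classical
  show ((HahnSeries.single (k • (0 : Γ)) (AddMonoidAlgebra.single k (1 : K))).coeff a).coeff m = 0
  rw [smul_zero]
  by_cases ha : a = 0
  · subst ha
    rw [HahnSeries.coeff_single_same]
    have hm : m ≠ k := fun h' => h ⟨rfl, h'⟩
    rw [AddMonoidAlgebra.coeff_single, Finsupp.single_apply, if_neg (Ne.symm hm)]
  · rw [HahnSeries.coeff_single_of_ne ha]
    rfl

theorem cf_incl_cc (c : Pt Γ K) : cf (incl (cc c)) c.v 0 = (c.2 : K) := by
  rw [cf_incl, if_pos rfl, cc, HahnSeries.coeff_single_same]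

theorem cf_incl_cc' (c : Pt Γ K) (a : Γ) (m : ℤ) (h : ¬ (a = c.v ∧ m = 0)) :
    cf (incl (cc c)) a m = 0 := by
  rw [cf_incl]
  split_ifs with hm
  · rw [cc, HahnSeries.coeff_single_of_ne (fun h' => h ⟨h', hm⟩)]
  · rfl

/-- the relation between the coefficients of a theta function -/
theorem rel_Th {P : Γ} {e : ℤ} {c : Pt Γ K} {f : Ent Γ K} (hf : f ∈ Th P e c) (a : Γ) (m : ℤ) :
    cf (f.1 0) (a - m • P) m = (c.2 : K) * cf (f.1 0) (a - c.v) (m + e) := by
  have h1 : (sg P f).1 0 = incl (cc c) * ((mono (-e) : Ent Γ K).1 0 * f.1 0) := by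
    rw [mem_Th.1 hf, mul_assoc]
    rfl
  have h2 : cf ((sg P f).1 0) a m = cf (f.1 0) (a - m • P) m := by
    rw [sg_val, Ent.rel, zero_add]
  rw [← h2, h1, cf_monomial_mul (cf_incl_cc c) (cf_incl_cc' c),
    cf_monomial_mul (cf_mono0 (-e)) (cf_mono0' (-e)), one_mul, sub_zero, sub_zero, sub_neg_eq_add]

theorem win' : S_win := by
  intro Γ K _ _ _ _ P e c f hf s a₀ h0 m hm
  have hc : (c.2 : K) ≠ 0 := c.2.ne_zero
  rw [Ent.rel] at hm
  have key : ∀ (b : Γ) (i : ℤ), cf (f.1 0) (b - i • s) i ≠ 0 → a₀ ≤ b := by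
    intro b i hb
    by_contra hlt
    rw [not_le] at hlt
    rw [← Ent.rel] at hb
    apply hb
    rw [cf, h0 b hlt]
    rfl
  constructor
  · have h1 := rel_Th hf (a₀ - m • s + m • P) m
    have e1 : a₀ - m • s + m • P - m • P = a₀ - m • s := by abel
    rw [e1] at h1
    have h2 : cf (f.1 0) (a₀ - m • s + m • P - c.v) (m + e) ≠ 0 := by
      intro h3
      rw [h3, mul_zero] at h1
      exact hm h1
    have e2 : a₀ - m • s + m • P - c.v = (a₀ + m • P - c.v + e • s) - (m + e) • s := by
      rw [add_smul]; abel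
    rw [e2] at h2
    have h3 := key _ _ h2
    have h4 : 0 ≤ m • P - (c.v - e • s) := by
      have := sub_nonneg.2 h3
      have e3 : a₀ + m • P - c.v + e • s - a₀ = m • P - (c.v - e • s) := by abel
      rwa [e3] at this
    exact sub_nonneg.1 h4
  · have h1 := rel_Th hf (a₀ - m • s + c.v) (m - e)
    have e1 : a₀ - m • s + c.v - c.v = a₀ - m • s := by abel
    rw [e1, sub_add_cancel] at h1
    have h2 : cf (f.1 0) (a₀ - m • s + c.v - (m - e) • P) (m - e) ≠ 0 := by
      rw [h1]
      exact mul_ne_zero hc hm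
    have e2 : a₀ - m • s + c.v - (m - e) • P = (a₀ + c.v - e • s - (m - e) • P) - (m - e) • s := by
      rw [sub_smul m e s]; abel
    rw [e2] at h2
    have h3 := key _ _ h2
    have h4 : 0 ≤ (c.v - e • s + e • P) - m • P := by
      have := sub_nonneg.2 h3
      have e3 : a₀ + c.v - e • s - (m - e) • P - a₀ = (c.v - e • s + e • P) - m • P := by
        rw [sub_smul]; abel
      rwa [e3] at this
    exact sub_nonneg.1 h4

theorem win (_ : S_Th) : S_win := win'

theorem two_k (m : ℤ) : 2 * (m * (m - 1) / 2) = m * (m - 1) := by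
  apply Int.mul_ediv_cancel'
  rcases Int.even_or_odd m with ⟨k, hk⟩ | ⟨k, hk⟩
  · exact ⟨k * (m - 1), by rw [hk]; ring⟩
  · exact ⟨m * k, by rw [hk]; ring⟩

/-- positivity of the exponents -/
theorem pos_aux {P δ : Γ} (h0 : 0 < δ) (hP : δ < P) (m : ℤ) (hm : m ≠ 0) :
    0 < (m * (m - 1) / 2) • P + m • δ := by
  have hPpos : 0 < P := h0.trans hP
  have h2 := two_k m
  set k := m * (m - 1) / 2 with hk
  rcases lt_or_gt_of_ne hm with h | h
  · have e1 : k • P + m • δ = (k + m) • P + (-m) • (P - δ) := by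
      rw [add_smul, smul_sub, neg_smul, neg_smul]; abel
    rw [e1]
    have h3 : 0 ≤ k + m := by nlinarith
    exact add_pos_of_nonneg_of_pos (zsmul_nonneg hPpos.le h3)
      (zsmul_pos (sub_pos.2 hP) (by omega))
  · have h3 : 0 ≤ k := by nlinarith
    exact add_pos_of_nonneg_of_pos (zsmul_nonneg hPpos.le h3) (zsmul_pos h0 h)

theorem pos_aux' {P δ : Γ} (h0 : 0 < δ) (hP : δ < P) (m : ℤ) (hm : m ≠ 1) :
    0 < (m * (m - 1) / 2) • P - (m - 1) • δ := by
  have hPpos : 0 < P := h0.trans hP
  have h2 := two_k m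
  set k := m * (m - 1) / 2 with hk
  rcases lt_or_gt_of_ne hm with h | h
  · have e1 : k • P - (m - 1) • δ = k • P + (1 - m) • δ := by
      rw [sub_smul, sub_smul]; abel
    rw [e1]
    have h3 : 0 ≤ k := by nlinarith
    exact add_pos_of_nonneg_of_pos (zsmul_nonneg hPpos.le h3) (zsmul_pos h0 (by omega))
  · have e1 : k • P - (m - 1) • δ = (k - (m - 1)) • P + (m - 1) • (P - δ) := by
      rw [sub_smul k, smul_sub]; abel
    rw [e1]
    have h3 : 0 ≤ k - (m - 1) := by nlinarith
    exact add_pos_of_nonneg_of_pos (zsmul_nonneg hPpos.le h3)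
      (zsmul_pos (sub_pos.2 hP) (by omega))

theorem lead : S_lead := by
  classical
  intro Γ K _ _ _ _ P hP a s
  rw [theta_eq hP a]
  have hcf := fun b m => cf_mkE (fun m => (((-1) ^ m * a.2 ^ (-m) : Kˣ) : K))
    (fun m => (m * (m - 1) / 2) • P - m • a.v) (big_aux hP a) s b m
  constructor
  · intro h1 h2
    have hE : ∀ m : ℤ, m ≠ 0 → 0 < (m * (m - 1) / 2) • P - m • a.v + m • s := by
      intro m hm
      have := pos_aux (P := P) (δ := s - a.v) (sub_pos.2 h1) (sub_lt_iff_lt_add'.2 h2) m hm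
      have e : (m * (m - 1) / 2) • P + m • (s - a.v) = (m * (m - 1) / 2) • P - m • a.v + m • s := by
        rw [smul_sub]; abel
      rwa [e] at this
    have hE0 : ((0 : ℤ) * (0 - 1) / 2) • P - (0 : ℤ) • a.v + (0 : ℤ) • s = 0 := by simp
    constructor
    · intro b hb
      ext m
      show cf _ b m = 0
      rw [hcf b m, if_neg]
      intro h
      by_cases hm : m = 0
      · subst hm
        rw [hE0] at h
        exact absurd h hb.ne'
      · have := hE m hm
        rw [h] at this
        exact absurd this (not_lt.2 hb.le)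
    · ext m
      show cf _ 0 m = _
      rw [hcf 0 m, AddMonoidAlgebra.coeff_single, Finsupp.single_apply]
      by_cases hm : m = 0
      · subst hm
        rw [if_pos hE0, if_pos rfl]
        simp
      · rw [if_neg (hE m hm).ne', if_neg (Ne.symm hm)]
  · intro h1 h2
    have hE : ∀ m : ℤ, m ≠ 1 → s - a.v < (m * (m - 1) / 2) • P - m • a.v + m • s := by
      intro m hm
      have := pos_aux' (P := P) (δ := a.v - s) (sub_pos.2 h1) (sub_lt_iff_lt_add'.2 h2) m hm
      have e : (m * (m - 1) / 2) • P - (m - 1) • (a.v - s) =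
          ((m * (m - 1) / 2) • P - m • a.v + m • s) - (s - a.v) := by
        rw [sub_smul, smul_sub, one_smul]; abel
      rw [e] at this
      exact sub_pos.1 this
    have hE1 : ((1 : ℤ) * (1 - 1) / 2) • P - (1 : ℤ) • a.v + (1 : ℤ) • s = s - a.v := by
      simp only [sub_self, mul_zero, Int.zero_ediv, zero_smul, one_smul]
      abel
    constructor
    · intro b hb
      ext m
      show cf _ b m = 0
      rw [hcf b m, if_neg]
      intro h
      by_cases hm : m = 1
      · subst hm
        rw [hE1] at h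
        exact absurd h hb.ne'
      · have := hE m hm
        rw [h] at this
        exact absurd this (not_lt.2 hb.le)
    · ext m
      show cf _ (s - a.v) m = _
      rw [hcf (s - a.v) m, AddMonoidAlgebra.coeff_single, Finsupp.single_apply]
      by_cases hm : m = 1
      · subst hm
        rw [if_pos hE1, if_pos rfl]
        simp
      · rw [if_neg (hE m hm).ne', if_neg (Ne.symm hm)]

end Pool.Agent.H955.TH
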